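import Pool.Agent.Q74.PD.Stm

/-! # Project PD: parities of the first terms of the trajectories of `Td d`

`oc d l x`: number of odd terms among the first `l` terms of the trajectory of `x`; it has period `2^l`, and the
generating function over the residues modulo `2^l` is `(1 + z)^l` (Terras).  The iterates are affine up to
`|2^l Td^l x - 3^oc x| ≤ |d| 3^l`.  Chernoff bound for the number of the `x` of an interval with at least `3 l / 5` odd
terms. -/

set_option autoImplicit false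

namespace Pool.Agent.Q204.PDP

open Finset
open Pool.Agent.H499R2.ND (Td)

/-- number of odd terms among the first `l` terms -/
def oc (d : ℤ) : ℕ → ℤ → ℕ
  | 0, _ => 0
  | l + 1, x => (if x % 2 = 0 then 0 else 1) + oc d l (Td d x)

theorem oc_le (d : ℤ) (l : ℕ) (x : ℤ) : oc d l x ≤ l := by
  induction l generalizing x with
  | zero => simp [oc]
  | succ l ih =>
    have := ih (Td d x)
    unfold oc
    split_ifs <;> omega

theorem oc_add (d : ℤ) (j i : ℕ) (x : ℤ) : oc d (j + i) x = oc d j x + oc d i ((Td d)^[j] x) := by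
  induction j generalizing x with
  | zero => simp [oc]
  | succ j ih =>
    rw [show j + 1 + i = (j + i) + 1 by omega, oc, oc, ih, Function.iterate_succ_apply, add_assoc]

theorem Td_two_mul (d u : ℤ) : Td d (2 * u) = u := by
  unfold Td; rw [if_pos (by omega)]; omega

theorem Td_even {d x : ℤ} (hx : x % 2 = 0) : 2 * Td d x = x := by
  unfold Td; rw [if_pos hx]; omega

theorem Td_oddx {d x : ℤ} (hd : Odd d) (hx : ¬ x % 2 = 0) : 2 * Td d x = 3 * x + d := by
  unfold Td; rw [if_neg hx]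
  obtain ⟨t, ht⟩ := hd
  omega

/-- adding an even number keeps the parity -/
theorem Td_add {d : ℤ} (hd : Odd d) (x m : ℤ) :
    Td d (x + 2 * m) = Td d x + (if x % 2 = 0 then 1 else 3) * m := by
  by_cases hx : x % 2 = 0
  · have h1 := Td_even (d := d) hx
    have h2 := Td_even (d := d) (x := x + 2 * m) (by omega)
    rw [if_pos hx]; omega
  · have h1 := Td_oddx hd hx
    have h2 := Td_oddx hd (x := x + 2 * m) (by omega)
    rw [if_neg hx]; omega

theorem oc_period {d : ℤ} (hd : Odd d) (l : ℕ) : ∀ x k : ℤ, oc d l (x + 2 ^ l * k) = oc d l x := by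
  induction l with
  | zero => intro x k; simp [oc]
  | succ l ih =>
    intro x k
    have e : x + 2 ^ (l + 1) * k = x + 2 * (2 ^ l * k) := by ring
    rw [e, oc, oc, Td_add hd]
    have e2 : (x + 2 * (2 ^ l * k)) % 2 = x % 2 := by omega
    rw [e2]
    have e3 : Td d x + (if x % 2 = 0 then 1 else 3) * (2 ^ l * k) =
        Td d x + 2 ^ l * ((if x % 2 = 0 then 1 else 3) * k) := by ring
    rw [e3, ih]

theorem oc_emod {d : ℤ} (hd : Odd d) (l : ℕ) (x : ℤ) : oc d l (x % 2 ^ l) = oc d l x := by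
  have h : x = x % 2 ^ l + 2 ^ l * (x / 2 ^ l) := (Int.emod_add_mul_ediv x (2 ^ l)).symm
  conv_rhs => rw [h]
  rw [oc_period hd]

/-- affine images of the residues modulo `q` -/
theorem sum_affine {M : Type*} [AddCommMonoid M] (q : ℕ) (hq : 0 < q) {c : ℕ} (hc : Nat.Coprime c q) (e : ℤ)
    (f : ℤ → M) (hf : ∀ x k : ℤ, f (x + q * k) = f x) :
    ∑ r ∈ range q, f (c * (r : ℤ) + e) = ∑ r ∈ range q, f (r : ℤ) := by
  have hmod : ∀ x : ℤ, f (x % q) = f x := fun x => by
    have h : x = x % q + q * (x / q) := (Int.emod_add_mul_ediv x q).symm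
    conv_rhs => rw [h]
    rw [hf]
  have hq' : (0 : ℤ) < q := by exact_mod_cast hq
  have hcq : IsCoprime (q : ℤ) (c : ℤ) := (Nat.isCoprime_iff_coprime.2 hc).symm
  refine sum_bij (fun r _ => ((c * (r : ℤ) + e) % q).toNat) ?_ ?_ ?_ ?_
  · intro r _
    rw [mem_range]
    have h1 := Int.emod_nonneg (c * (r : ℤ) + e) hq'.ne'
    have h2 := Int.emod_lt_of_pos (c * (r : ℤ) + e) hq'
    omega
  · intro r hr r' hr' h
    rw [mem_range] at hr hr'
    have h1 := Int.emod_nonneg (c * (r : ℤ) + e) hq'.ne'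
    have h2 := Int.emod_nonneg (c * (r' : ℤ) + e) hq'.ne'
    have h3 : (c * (r : ℤ) + e) % q = (c * (r' : ℤ) + e) % q := by omega
    have h4 : (q : ℤ) ∣ (c * (r : ℤ) + e) - (c * (r' : ℤ) + e) :=
      Int.ModEq.dvd (h3.symm : (c * (r' : ℤ) + e) ≡ (c * (r : ℤ) + e) [ZMOD q])
    have h5 : (q : ℤ) ∣ c * ((r : ℤ) - r') := by
      have : (c * (r : ℤ) + e) - (c * (r' : ℤ) + e) = c * ((r : ℤ) - r') := by ring
      rwa [this] at h4
    have h6 : (q : ℤ) ∣ (r : ℤ) - r' := hcq.dvd_of_dvd_mul_left h5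
    have h7 : |(r : ℤ) - r'| < q := by rw [abs_lt]; omega
    have h8 := Int.eq_zero_of_abs_lt_dvd h6 h7
    omega
  · intro s hs
    rw [mem_range] at hs
    obtain ⟨a, b, hab⟩ := hcq
    -- a * q + b * c = 1
    refine ⟨((b * ((s : ℤ) - e)) % q).toNat, ?_, ?_⟩
    · rw [mem_range]
      have h1 := Int.emod_nonneg (b * ((s : ℤ) - e)) hq'.ne'
      have h2 := Int.emod_lt_of_pos (b * ((s : ℤ) - e)) hq'
      omega
    · have h1 := Int.emod_nonneg (b * ((s : ℤ) - e)) hq'.ne'
      have h2 : (((b * ((s : ℤ) - e)) % q).toNat : ℤ) = (b * ((s : ℤ) - e)) % q := Int.toNat_of_nonneg h1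
      simp only [h2]
      have h3 : (c * ((b * ((s : ℤ) - e)) % q) + e) % q = (s : ℤ) := by
        have h4 : (c * ((b * ((s : ℤ) - e)) % q) + e) ≡ (s : ℤ) [ZMOD q] := by
          have h5 : (b * ((s : ℤ) - e)) % q ≡ b * ((s : ℤ) - e) [ZMOD q] := Int.mod_modEq _ _
          have h6 : (c * ((b * ((s : ℤ) - e)) % q) + e) ≡ c * (b * ((s : ℤ) - e)) + e [ZMOD q] :=
            (h5.mul_left _).add_right _
          refine h6.trans ?_
          have h7 : c * (b * ((s : ℤ) - e)) + e = (s : ℤ) - q * (a * ((s : ℤ) - e)) := by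
            have : (c : ℤ) * b = 1 - a * q := by linarith
            calc c * (b * ((s : ℤ) - e)) + e = (c * b) * ((s : ℤ) - e) + e := by ring
              _ = _ := by rw [this]; ring
          rw [h7]
          exact (Int.modEq_iff_dvd.2 ⟨a * ((s : ℤ) - e), by ring⟩)
        rw [h4.eq, Int.emod_eq_of_lt (by positivity) (by exact_mod_cast hs)]
      rw [h3]
      simp
  · intro r _
    have h1 := Int.emod_nonneg (c * (r : ℤ) + e) hq'.ne'
    rw [Int.toNat_of_nonneg h1, hmod]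

/-- TERRAS: the generating function of the number of odd terms over the residues modulo `2^l` -/
theorem sum_oc {d : ℤ} (hd : Odd d) (z : ℝ) (l : ℕ) :
    ∑ r ∈ range (2 ^ l), z ^ oc d l (r : ℤ) = (1 + z) ^ l := by
  induction l with
  | zero => simp [oc]
  | succ l ih =>
    have hsplit : ∑ r ∈ range (2 ^ (l + 1)), z ^ oc d (l + 1) (r : ℤ) =
        ∑ u ∈ range (2 ^ l), (z ^ oc d (l + 1) ((2 * u : ℕ) : ℤ) + z ^ oc d (l + 1) ((2 * u + 1 : ℕ) : ℤ)) := by
      rw [pow_succ, mul_comm (2 ^ l) 2]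
      generalize 2 ^ l = N
      induction N with
      | zero => simp
      | succ N ihN => rw [show 2 * (N + 1) = 2 * N + 1 + 1 by ring, sum_range_succ, sum_range_succ, ihN, sum_range_succ]; ring
    rw [hsplit, sum_add_distrib]
    have h1 : ∑ u ∈ range (2 ^ l), z ^ oc d (l + 1) ((2 * u : ℕ) : ℤ) = (1 + z) ^ l := by
      rw [← ih]
      refine sum_congr rfl fun u _ => ?_
      have e1 : ((2 * u : ℕ) : ℤ) = 2 * (u : ℤ) := by push_cast; ring
      rw [e1, oc, if_pos (by omega), Td_two_mul, zero_add]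
    have h2 : ∑ u ∈ range (2 ^ l), z ^ oc d (l + 1) ((2 * u + 1 : ℕ) : ℤ) = z * (1 + z) ^ l := by
      rw [← ih, mul_sum]
      have h3 := sum_affine (2 ^ l) (by positivity) (c := 3) (Nat.Coprime.pow_right l (by norm_num)) ((3 + d) / 2)
        (fun x => z * z ^ oc d l x) (fun x k => by
          have e1 : ((2 ^ l : ℕ) : ℤ) = 2 ^ l := by push_cast; ring
          simp only [e1, oc_period hd])
      rw [← h3]
      refine sum_congr rfl fun u _ => ?_
      have e1 : ((2 * u + 1 : ℕ) : ℤ) = 2 * (u : ℤ) + 1 := by push_cast; ring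
      have e2 : Td d (2 * (u : ℤ) + 1) = 3 * (u : ℤ) + (3 + d) / 2 := by
        have := Td_oddx hd (x := 2 * (u : ℤ) + 1) (by omega)
        obtain ⟨t, ht⟩ := hd
        omega
      rw [e1, oc, if_neg (by omega), e2, pow_add, pow_one]
      norm_num
    rw [h1, h2]
    ring

/-- the iterates are affine up to a small error -/
theorem iter_affine {d : ℤ} (hd : Odd d) (l : ℕ) (x : ℤ) :
    |2 ^ l * (Td d)^[l] x - 3 ^ oc d l x * x| ≤ |d| * 3 ^ l := by
  induction l generalizing x with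
  | zero => simp [oc]
  | succ l ih =>
    rw [Function.iterate_succ_apply, oc]
    have h1 := ih (Td d x)
    by_cases hx : x % 2 = 0
    · rw [if_pos hx, zero_add]
      have h2 := Td_even (d := d) hx
      have e : 2 ^ (l + 1) * (Td d)^[l] (Td d x) - 3 ^ oc d l (Td d x) * x =
          2 * (2 ^ l * (Td d)^[l] (Td d x) - 3 ^ oc d l (Td d x) * Td d x) := by
        generalize (3 : ℤ) ^ oc d l (Td d x) = K
        linear_combination (-K) * h2.symm
      rw [e, abs_mul, abs_of_pos (show (0 : ℤ) < 2 by norm_num)]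
      have h3 : 0 ≤ |d| * 3 ^ l := by positivity
      calc 2 * |2 ^ l * (Td d)^[l] (Td d x) - 3 ^ oc d l (Td d x) * Td d x| ≤ 2 * (|d| * 3 ^ l) := by linarith
        _ ≤ 3 * (|d| * 3 ^ l) := by linarith
        _ = |d| * 3 ^ (l + 1) := by ring
    · rw [if_neg hx]
      have h2 := Td_oddx hd hx
      have e : 2 ^ (l + 1) * (Td d)^[l] (Td d x) - 3 ^ (1 + oc d l (Td d x)) * x =
          2 * (2 ^ l * (Td d)^[l] (Td d x) - 3 ^ oc d l (Td d x) * Td d x) + 3 ^ oc d l (Td d x) * d := by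
        have : 2 * (3 ^ oc d l (Td d x) * Td d x) = 3 ^ oc d l (Td d x) * (3 * x + d) := by
          rw [← h2]; ring
        rw [mul_sub, this, pow_add]; ring
      rw [e]
      have h4 : |3 ^ oc d l (Td d x) * d| ≤ 3 ^ l * |d| := by
        rw [abs_mul, abs_of_pos (by positivity : (0 : ℤ) < 3 ^ oc d l (Td d x))]
        exact mul_le_mul_of_nonneg_right (pow_le_pow_right₀ (by norm_num) (oc_le d l _)) (abs_nonneg _)
      have h5 := abs_add_le (2 * (2 ^ l * (Td d)^[l] (Td d x) - 3 ^ oc d l (Td d x) * Td d x))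
        (3 ^ oc d l (Td d x) * d)
      rw [abs_mul 2, abs_of_pos (show (0 : ℤ) < 2 by norm_num)] at h5
      have e3 : |d| * 3 ^ (l + 1) = 2 * (|d| * 3 ^ l) + 3 ^ l * |d| := by ring
      rw [e3]
      linarith

/-- elements of an interval with a property of period `q` -/
theorem card_period_le (q : ℕ) (hq : 0 < q) (P : ℤ → Prop) [DecidablePred P]
    (hP : ∀ x : ℤ, P x ↔ P (x % q)) (N : ℕ) :
    ((Finset.Icc (1 : ℤ) N).filter P).card ≤ (N / q + 1) * ((range q).filter (fun r : ℕ => P (r : ℤ))).card := by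
  rw [← card_range (N / q + 1), ← card_product]
  have hq' : (0 : ℤ) < q := by exact_mod_cast hq
  refine card_le_card_of_injOn (fun x => ((x / q).toNat, (x % q).toNat)) ?_ ?_
  · intro x hx
    rw [Finset.mem_coe, mem_filter, Finset.mem_Icc] at hx
    obtain ⟨⟨h1, h2⟩, h3⟩ := hx
    have h4 := Int.emod_nonneg x hq'.ne'
    have h5 := Int.emod_lt_of_pos x hq'
    have h6 : 0 ≤ x / q := Int.ediv_nonneg (by omega) hq'.le
    have h7 : x / q ≤ (N : ℤ) / q := Int.ediv_le_ediv hq' h2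
    simp only [Finset.mem_coe, mem_product, mem_range, mem_filter]
    refine ⟨?_, ?_, ?_⟩
    · have : ((N / q : ℕ) : ℤ) = (N : ℤ) / q := by push_cast; rfl
      omega
    · omega
    · rw [Int.toNat_of_nonneg h4]; exact (hP x).1 h3
  · intro x hx y hy hxy
    rw [Finset.mem_coe, mem_filter, Finset.mem_Icc] at hx hy
    simp only [Prod.mk.injEq] at hxy
    have h1 := Int.emod_nonneg x hq'.ne'
    have h2 := Int.emod_nonneg y hq'.ne'
    have h3 : 0 ≤ x / q := Int.ediv_nonneg (by omega) hq'.le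
    have h4 : 0 ≤ y / q := Int.ediv_nonneg (by omega) hq'.le
    have h5 : x / q = y / q := by omega
    have h6 : x % q = y % q := by omega
    rw [← Int.emod_add_mul_ediv x q, ← Int.emod_add_mul_ediv y q, h5, h6]

/-- decay rate: `(5/4) / (3/2)^(3/5)` -/
noncomputable def rho : ℝ := 5 / 4 / (3 / 2) ^ (3 / 5 : ℝ)

theorem rho_pos : 0 < rho := by unfold rho; positivity

theorem rho_lt : rho < 1 := by
  unfold rho
  rw [div_lt_one (by positivity)]
  have h : (5 / 4 : ℝ) = ((5 / 4) ^ (5 : ℝ)) ^ (1 / 5 : ℝ) := by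
    rw [← Real.rpow_mul (by norm_num)]; norm_num
  have h2 : (3 / 2 : ℝ) ^ (3 / 5 : ℝ) = ((3 / 2) ^ (3 : ℝ)) ^ (1 / 5 : ℝ) := by
    rw [← Real.rpow_mul (by norm_num)]; norm_num
  rw [h, h2]
  apply Real.rpow_lt_rpow (by positivity) _ (by norm_num)
  have e1 : (5 / 4 : ℝ) ^ (5 : ℝ) = (5 / 4) ^ (5 : ℕ) := by rw [← Real.rpow_natCast]; norm_num
  have e2 : (3 / 2 : ℝ) ^ (3 : ℝ) = (3 / 2) ^ (3 : ℕ) := by rw [← Real.rpow_natCast]; norm_num
  rw [e1, e2]
  norm_num

/-- CHERNOFF: residues modulo `2^l` with at least `3 l / 5` odd terms -/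
theorem card_many_odd {d : ℤ} (hd : Odd d) (l : ℕ) :
    (((range (2 ^ l)).filter (fun r : ℕ => 3 * l ≤ 5 * oc d l (r : ℤ))).card : ℝ) ≤ 2 ^ l * rho ^ l := by
  have hz : (0 : ℝ) < (3 / 2 : ℝ) ^ (3 / 5 : ℝ) := by positivity
  have h1 : (((range (2 ^ l)).filter (fun r : ℕ => 3 * l ≤ 5 * oc d l (r : ℤ))).card : ℝ) *
      ((3 / 2 : ℝ) ^ (3 / 5 : ℝ)) ^ l ≤ ∑ r ∈ range (2 ^ l), (3 / 2 : ℝ) ^ oc d l (r : ℤ) := by
    rw [← nsmul_eq_mul, ← sum_const]
    refine (sum_le_sum fun r hr => ?_).trans (sum_le_sum_of_subset_of_nonneg (filter_subset _ _)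
      fun _ _ _ => by positivity)
    rw [mem_filter] at hr
    rw [← Real.rpow_natCast, ← Real.rpow_natCast, ← Real.rpow_mul (by norm_num)]
    apply Real.rpow_le_rpow_of_exponent_le (by norm_num)
    have h2 : (3 * l : ℝ) ≤ 5 * (oc d l (r : ℤ) : ℝ) := by exact_mod_cast hr.2
    linarith
  rw [sum_oc hd] at h1
  have h2 : (2 : ℝ) ^ l * rho ^ l * ((3 / 2 : ℝ) ^ (3 / 5 : ℝ)) ^ l = (1 + 3 / 2) ^ l := by
    rw [← mul_pow, ← mul_pow]
    congr 1
    unfold rho
    field_simp
    norm_num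
  rw [← h2] at h1
  exact le_of_mul_le_mul_right h1 (by positivity)

end Pool.Agent.Q204.PDP
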