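import Pool.Agent.Q204.PDP.Par

/-! # Project PD, job Far: few `a ∈ [A, 2A)` have a distant ancestor below `2A` -/

set_option autoImplicit false

namespace Pool.Agent.Q204.PDP

open Finset
open Pool.Agent.H499R2.ND (Td)
open Pool.Agent.Q74.PD

/-- the `1 ≤ v ≤ 2A` with `Td^l v ≥ A` -/
noncomputable def Bl (d : ℤ) (A : ℝ) (l : ℕ) : Finset ℤ :=
  (Finset.Icc (1 : ℤ) ((⌊2 * A⌋₊ : ℕ) : ℤ)).filter (fun v => A ≤ (((Td d)^[l] v : ℤ) : ℝ))

theorem card_Bl {d : ℤ} (hd : Odd d) {A : ℝ} (hA : 0 < A) {l : ℕ} (hl : 35 ≤ l) (h2 : (2 : ℝ) ^ l ≤ A)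
    (h3 : |(d : ℝ)| * 3 ^ l ≤ 2 ^ l * A / 2) : ((Bl d A l).card : ℝ) ≤ 3 * A * rho ^ l := by
  have hsub : Bl d A l ⊆ (Finset.Icc (1 : ℤ) ((⌊2 * A⌋₊ : ℕ) : ℤ)).filter (fun v => 3 * l ≤ 5 * oc d l v) := by
    intro v hv
    unfold Bl at hv
    rw [mem_filter, Finset.mem_Icc] at hv ⊢
    obtain ⟨⟨h4, h5⟩, h6⟩ := hv
    refine ⟨⟨h4, h5⟩, ?_⟩
    have h7 := iter_affine hd l v
    have h7R : |(2 : ℝ) ^ l * (((Td d)^[l] v : ℤ) : ℝ) - 3 ^ oc d l v * (v : ℝ)| ≤ |(d : ℝ)| * 3 ^ l := by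
      exact_mod_cast h7
    have h8 := (abs_le.1 h7R).2
    have h9 : (v : ℝ) ≤ 2 * A := by
      have : (v : ℝ) ≤ (⌊2 * A⌋₊ : ℝ) := by exact_mod_cast h5
      exact this.trans (Nat.floor_le (by positivity))
    have h10 : (2 : ℝ) ^ l * A ≤ 2 ^ l * (((Td d)^[l] v : ℤ) : ℝ) :=
      mul_le_mul_of_nonneg_left h6 (by positivity)
    have h11 : (3 : ℝ) ^ oc d l v * (v : ℝ) ≤ 3 ^ oc d l v * (2 * A) :=
      mul_le_mul_of_nonneg_left h9 (by positivity)
    have h12 : (2 : ℝ) ^ l * A ≤ 4 * 3 ^ oc d l v * A := by linarith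
    have h13 : (2 : ℝ) ^ l ≤ 4 * 3 ^ oc d l v := le_of_mul_le_mul_right h12 hA
    have h14 : (2 : ℕ) ^ l ≤ 4 * 3 ^ oc d l v := by exact_mod_cast h13
    by_contra hcon
    have h15 : 5 * oc d l v + 1 ≤ 3 * l := by omega
    have h16 : ((2 : ℕ) ^ l) ^ 5 ≤ (4 * 3 ^ oc d l v) ^ 5 := Nat.pow_le_pow_left h14 5
    have h17 : (4 * 3 ^ oc d l v) ^ 5 * 3 = 1024 * 3 ^ (5 * oc d l v + 1) := by
      rw [mul_pow, ← pow_mul, pow_succ, mul_comm (oc d l v) 5]; norm_num; ring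
    have h18 : 3 ^ (5 * oc d l v + 1) ≤ 3 ^ (3 * l) := Nat.pow_le_pow_right (by norm_num) h15
    have h19 : 3 * ((2 : ℕ) ^ l) ^ 5 ≤ 1024 * 3 ^ (3 * l) := by
      calc 3 * ((2 : ℕ) ^ l) ^ 5 ≤ 3 * (4 * 3 ^ oc d l v) ^ 5 := Nat.mul_le_mul_left _ h16
        _ = 1024 * 3 ^ (5 * oc d l v + 1) := by rw [← h17]; ring
        _ ≤ _ := Nat.mul_le_mul_left _ h18
    have h20 : ∀ n : ℕ, 1024 * 3 ^ (3 * (n + 35)) < 3 * ((2 : ℕ) ^ (n + 35)) ^ 5 := by
      intro n
      induction n with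
      | zero => norm_num
      | succ n ih =>
        have e1 : 3 ^ (3 * (n + 1 + 35)) = 27 * 3 ^ (3 * (n + 35)) := by
          rw [show 3 * (n + 1 + 35) = 3 * (n + 35) + 3 by ring, pow_add]; ring
        have e2 : ((2 : ℕ) ^ (n + 1 + 35)) ^ 5 = 32 * ((2 : ℕ) ^ (n + 35)) ^ 5 := by
          have e3 : (2 : ℕ) ^ (n + 1 + 35) = 2 * 2 ^ (n + 35) := by
            rw [show n + 1 + 35 = (n + 35) + 1 by ring, pow_succ]; ring
          rw [e3, mul_pow]; norm_num
        rw [e1, e2]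
        have : 0 < 3 ^ (3 * (n + 35)) := by positivity
        omega
    obtain ⟨n, rfl⟩ : ∃ n, l = n + 35 := ⟨l - 35, by omega⟩
    have := h20 n
    omega
  have hP : ∀ x : ℤ, 3 * l ≤ 5 * oc d l x ↔ 3 * l ≤ 5 * oc d l (x % ((2 ^ l : ℕ) : ℤ)) := by
    intro x
    have e1 : ((2 ^ l : ℕ) : ℤ) = 2 ^ l := by push_cast; ring
    rw [e1, oc_emod hd]
  have h4 := (card_le_card hsub).trans (card_period_le (2 ^ l) (by positivity) (fun v => 3 * l ≤ 5 * oc d l v) hP
    ⌊2 * A⌋₊)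
  have h5 : ((Bl d A l).card : ℝ) ≤ (((⌊2 * A⌋₊ / 2 ^ l : ℕ) : ℝ) + 1) *
      ((range (2 ^ l)).filter (fun r : ℕ => 3 * l ≤ 5 * oc d l (r : ℤ))).card := by exact_mod_cast h4
  have h6 : ((⌊2 * A⌋₊ / 2 ^ l : ℕ) : ℝ) ≤ 2 * A / 2 ^ l := by
    have e1 : ((⌊2 * A⌋₊ / 2 ^ l : ℕ) : ℝ) ≤ (⌊2 * A⌋₊ : ℝ) / ((2 ^ l : ℕ) : ℝ) := Nat.cast_div_le
    refine e1.trans ?_
    push_cast
    exact div_le_div_of_nonneg_right (Nat.floor_le (by positivity)) (by positivity)
  have h7 := card_many_odd hd l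
  have hr := rho_pos
  calc ((Bl d A l).card : ℝ) ≤ _ := h5
    _ ≤ (2 * A / 2 ^ l + 1) * (2 ^ l * rho ^ l) := by
        apply mul_le_mul _ h7 (Nat.cast_nonneg _) (by positivity)
        linarith
    _ = (2 * A + 2 ^ l) * rho ^ l := by field_simp
    _ ≤ 3 * A * rho ^ l := by
        apply mul_le_mul_of_nonneg_right _ (by positivity)
        linarith

theorem Td_nonpos {d x : ℤ} (hd : Odd d) (hd0 : d < 0) (hx : x ≤ 0) : Td d x ≤ 0 := by
  by_cases h : x % 2 = 0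
  · have := Td_even (d := d) h; omega
  · have := Td_oddx hd h; omega

theorem Td_pos' {d x : ℤ} (hd : Odd d) (hd0 : 0 < d) (hx : 1 ≤ x) : 1 ≤ Td d x := by
  by_cases h : x % 2 = 0
  · have := Td_even (d := d) h; omega
  · have := Td_oddx hd h; omega

theorem pos_iter {d : ℤ} (hd : Odd d) {u : ℤ} (hu : 1 ≤ u) {j : ℕ} (hj : 1 ≤ (Td d)^[j] u) :
    ∀ r ≤ j, 1 ≤ (Td d)^[r] u := by
  intro r hr
  rcases lt_trichotomy d 0 with h | h | h
  · by_contra hcon
    have hneg : ∀ n : ℕ, (Td d)^[n + r] u ≤ 0 := by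
      intro n
      induction n with
      | zero => rw [zero_add]; omega
      | succ n ih =>
        rw [show n + 1 + r = (n + r) + 1 by ring, Function.iterate_succ_apply']
        exact Td_nonpos hd h ih
    have := hneg (j - r)
    rw [Nat.sub_add_cancel hr] at this
    omega
  · subst h; exact absurd hd (by decide)
  · clear hr
    induction r with
    | zero => exact hu
    | succ r ih => rw [Function.iterate_succ_apply']; exact Td_pos' hd h ih

open Classical in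
/-- the first later term `≤ 2A` -/
noncomputable def FR (d : ℤ) (A : ℝ) (v : ℤ) : ℤ :=
  if h : ∃ t : ℕ, 1 ≤ t ∧ (((Td d)^[t] v : ℤ) : ℝ) ≤ 2 * A then (Td d)^[Nat.find h] v else 0

/-- the covering set -/
noncomputable def Cov (d : ℤ) (A : ℝ) (i : ℕ) : Finset ℤ :=
  (Ico i (2 * i)).biUnion (fun l => (Bl d A l).image ((Td d)^[l])) ∪
    (range i).biUnion (fun s => (Bl d A i).image (fun v => (Td d)^[s] (FR d A v)))

theorem mem_Cov {d : ℤ} (hd : Odd d) {A : ℝ} (hA : 1 ≤ A) {i : ℕ} (hi : 1 ≤ i) {a u : ℤ} {j : ℕ}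
    (ha : A ≤ a) (ha2 : (a : ℝ) < 2 * A) (hu : 1 ≤ u) (hu2 : (u : ℝ) ≤ 2 * A) (hj : 2 * i ≤ j)
    (hja : (Td d)^[j] u = a) : a ∈ Cov d A i := by
  classical
  have ha1 : 1 ≤ a := by
    have : (1 : ℝ) ≤ (a : ℝ) := hA.trans ha
    exact_mod_cast this
  have hpos := pos_iter hd hu (j := j) (by rw [hja]; exact ha1)
  set P : ℕ → Prop := fun r => (((Td d)^[r] u : ℤ) : ℝ) ≤ 2 * A with hP
  set q : ℕ := Nat.findGreatest P (j - i) with hq
  have hq1 : q ≤ j - i := Nat.findGreatest_le _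
  have hPq : P q := Nat.findGreatest_spec (P := P) (Nat.zero_le (j - i)) (by simpa [hP] using hu2)
  have hgr : ∀ k, q < k → k ≤ j - i → ¬ P k := fun k h1 h2 => Nat.findGreatest_is_greatest h1 h2
  set v : ℤ := (Td d)^[q] u with hv
  have hv1 : 1 ≤ v := hpos q (by omega)
  have hv2 : (v : ℝ) ≤ 2 * A := hPq
  have hit : ∀ t, (Td d)^[t] v = (Td d)^[q + t] u := fun t => by
    rw [hv, ← Function.iterate_add_apply, add_comm]
  have hvN : v ≤ ((⌊2 * A⌋₊ : ℕ) : ℤ) := by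
    obtain ⟨w, hw⟩ := Int.eq_ofNat_of_zero_le (show 0 ≤ v by omega)
    rw [hw] at hv2 ⊢
    have : w ≤ ⌊2 * A⌋₊ := Nat.le_floor (by exact_mod_cast hv2)
    exact_mod_cast this
  unfold Cov
  rw [mem_union, mem_biUnion, mem_biUnion]
  by_cases hc : j - q < 2 * i
  · left
    refine ⟨j - q, ?_, ?_⟩
    · rw [mem_Ico]; omega
    · rw [mem_image]
      have e : (Td d)^[j - q] v = a := by rw [hit, Nat.add_sub_cancel' (by omega), hja]
      refine ⟨v, ?_, e⟩
      unfold Bl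
      rw [mem_filter, Finset.mem_Icc]
      exact ⟨⟨hv1, hvN⟩, by rw [e]; exact ha⟩
  · right
    have hex : ∃ t : ℕ, 1 ≤ t ∧ (((Td d)^[t] v : ℤ) : ℝ) ≤ 2 * A :=
      ⟨j - q, by omega, by rw [hit, Nat.add_sub_cancel' (by omega), hja]; exact ha2.le⟩
    have hf1 : Nat.find hex ≤ j - q := Nat.find_min' hex
      ⟨by omega, by rw [hit, Nat.add_sub_cancel' (by omega), hja]; exact ha2.le⟩
    have hf2 := Nat.find_spec hex
    have hf3 : j - i - q < Nat.find hex := by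
      by_contra hcon
      have h1 := hgr (q + Nat.find hex) (by omega) (by omega)
      apply h1
      have h2 := hf2.2
      rw [hit] at h2
      exact h2
    refine ⟨j - q - Nat.find hex, ?_, ?_⟩
    · rw [mem_range]; omega
    · rw [mem_image]
      refine ⟨v, ?_, ?_⟩
      · unfold Bl
        rw [mem_filter, Finset.mem_Icc]
        refine ⟨⟨hv1, hvN⟩, ?_⟩
        rw [hit]
        have h1 := hgr (q + i) (by omega) (by omega)
        simp only [hP, not_le] at h1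
        linarith
      · unfold FR
        rw [dif_pos hex, ← Function.iterate_add_apply, Nat.sub_add_cancel hf1, hit,
          Nat.add_sub_cancel' (by omega), hja]

theorem card_Cov_le {d : ℤ} {A : ℝ} {i : ℕ} {M : ℝ} (h : ∀ l, i ≤ l → l < 2 * i → ((Bl d A l).card : ℝ) ≤ M)
    (hi : 1 ≤ i) : ((Cov d A i).card : ℝ) ≤ 2 * i * M := by
  have h1 : (((Ico i (2 * i)).biUnion (fun l => (Bl d A l).image ((Td d)^[l]))).card : ℝ) ≤ i * M := by
    have h2 : (((Ico i (2 * i)).biUnion (fun l => (Bl d A l).image ((Td d)^[l]))).card : ℝ) ≤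
        ∑ l ∈ Ico i (2 * i), ((Bl d A l).card : ℝ) := by
      have := card_biUnion_le (s := Ico i (2 * i)) (t := fun l => (Bl d A l).image ((Td d)^[l]))
      have h3 : ∑ l ∈ Ico i (2 * i), ((Bl d A l).image ((Td d)^[l])).card ≤ ∑ l ∈ Ico i (2 * i), (Bl d A l).card :=
        sum_le_sum fun l _ => card_image_le
      exact_mod_cast this.trans h3
    refine h2.trans ((sum_le_sum fun l hl => h l (mem_Ico.1 hl).1 (mem_Ico.1 hl).2).trans ?_)
    rw [sum_const, Nat.card_Ico, nsmul_eq_mul]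
    have : 2 * i - i = i := by omega
    rw [this]
  have h4 : (((range i).biUnion (fun s => (Bl d A i).image (fun v => (Td d)^[s] (FR d A v)))).card : ℝ) ≤ i * M := by
    have h2 : (((range i).biUnion (fun s => (Bl d A i).image (fun v => (Td d)^[s] (FR d A v)))).card : ℝ) ≤
        ∑ s ∈ range i, ((Bl d A i).card : ℝ) := by
      have := card_biUnion_le (s := range i) (t := fun s => (Bl d A i).image (fun v => (Td d)^[s] (FR d A v)))
      have h3 : ∑ s ∈ range i, ((Bl d A i).image (fun v => (Td d)^[s] (FR d A v))).card ≤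
          ∑ s ∈ range i, (Bl d A i).card := sum_le_sum fun l _ => card_image_le
      exact_mod_cast this.trans h3
    refine h2.trans ((sum_le_sum fun l _ => h i le_rfl (by omega)).trans ?_)
    rw [sum_const, card_range, nsmul_eq_mul]
  have h5 : ((Cov d A i).card : ℝ) ≤
      (((Ico i (2 * i)).biUnion (fun l => (Bl d A l).image ((Td d)^[l]))).card : ℝ) +
      (((range i).biUnion (fun s => (Bl d A i).image (fun v => (Td d)^[s] (FR d A v)))).card : ℝ) := by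
    unfold Cov
    exact_mod_cast card_union_le _ _
  linarith

end Pool.Agent.Q204.PDP

namespace Pool.Agent.Q74.PD

open Finset
open Pool.Agent.Q204.PDP
open Pool.Agent.H499R2.ND (Td)

theorem far : S_Far := by
  intro d hd
  set κ : ℝ := -Real.log rho with hκ
  have hκ0 : 0 < κ := by
    have := Real.log_neg rho_pos rho_lt
    rw [hκ]; linarith
  have hρ : ∀ n : ℕ, rho ^ n = Real.exp (-κ * n) := by
    intro n
    rw [hκ, neg_neg, mul_comm, Real.exp_nat_mul, Real.exp_log rho_pos]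
  refine ⟨κ / 80, Real.exp (1440 + 4 * |(d : ℝ)| + 12800 * Real.exp κ / κ ^ 2), by positivity, fun A hA => ?_⟩
  have hA0 : 0 < A := lt_of_lt_of_le (Real.exp_pos _) hA
  set L : ℝ := Real.log A with hL
  have hL1 : 1440 + 4 * |(d : ℝ)| + 12800 * Real.exp κ / κ ^ 2 ≤ L := by
    rw [hL, Real.le_log_iff_exp_le hA0]; exact hA
  have hd0 : 0 ≤ |(d : ℝ)| := abs_nonneg _
  have hk0 : 0 ≤ 12800 * Real.exp κ / κ ^ 2 := by positivity
  have hL2 : 1440 ≤ L := by linarith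
  have hAL : A = Real.exp L := by rw [hL, Real.exp_log hA0]
  set i : ℕ := ⌊L / 40⌋₊ with hi
  have hi1 : (i : ℝ) ≤ L / 40 := Nat.floor_le (by linarith)
  have hi2 : L / 40 < i + 1 := Nat.lt_floor_add_one _
  have hi3 : 35 ≤ i := by
    rw [hi]; apply Nat.le_floor; push_cast; linarith
  have hpow2 : ∀ l : ℕ, l < 2 * i → (2 : ℝ) ^ l ≤ Real.exp (L / 20) := by
    intro l hl
    have h1 : (l : ℝ) ≤ L / 20 := by
      have : (l : ℝ) < 2 * i := by exact_mod_cast hl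
      linarith
    have h2 : (2 : ℝ) ≤ Real.exp 1 := by
      have := Real.add_one_le_exp (1 : ℝ); linarith
    calc (2 : ℝ) ^ l ≤ (Real.exp 1) ^ l := pow_le_pow_left₀ (by norm_num) h2 l
      _ = Real.exp l := by rw [← Real.exp_nat_mul, mul_one]
      _ ≤ _ := Real.exp_le_exp.2 h1
  have hB : ∀ l, i ≤ l → l < 2 * i → ((Bl d A l).card : ℝ) ≤ 3 * A * Real.exp (-κ * i) := by
    intro l hl1 hl2
    have h1 := hpow2 l hl2
    have h2 : (2 : ℝ) ^ l ≤ A := by
      rw [hAL]; exact h1.trans (Real.exp_le_exp.2 (by linarith))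
    have h3 : |(d : ℝ)| * 3 ^ l ≤ 2 ^ l * A / 2 := by
      have e1 : (3 : ℝ) ^ l = 2 ^ l * (3 / 2) ^ l := by rw [← mul_pow]; norm_num
      have e2 : (3 / 2 : ℝ) ^ l ≤ 2 ^ l := pow_le_pow_left₀ (by norm_num) (by norm_num) l
      have e3 : |(d : ℝ)| * (3 / 2) ^ l ≤ A / 2 := by
        have e4 : 2 * |(d : ℝ)| ≤ Real.exp (19 * L / 20) := by
          have := Real.add_one_le_exp (19 * L / 20); linarith
        have e5 : A = Real.exp (19 * L / 20) * Real.exp (L / 20) := by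
          rw [hAL, ← Real.exp_add]; congr 1; ring
        have e6 : |(d : ℝ)| * (3 / 2) ^ l ≤ |(d : ℝ)| * Real.exp (L / 20) :=
          mul_le_mul_of_nonneg_left (e2.trans h1) hd0
        have e7 := mul_le_mul_of_nonneg_right e4 (Real.exp_pos (L / 20)).le
        rw [e5]
        linarith
      calc |(d : ℝ)| * 3 ^ l = 2 ^ l * (|(d : ℝ)| * (3 / 2) ^ l) := by rw [e1]; ring
        _ ≤ 2 ^ l * (A / 2) := mul_le_mul_of_nonneg_left e3 (by positivity)
        _ = _ := by ring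
    refine (card_Bl hd hA0 (by omega) h2 h3).trans ?_
    rw [hρ]
    apply mul_le_mul_of_nonneg_left _ (by positivity)
    apply Real.exp_le_exp.2
    have : (i : ℝ) ≤ l := by exact_mod_cast hl1
    nlinarith
  have hC := card_Cov_le hB (by omega)
  have hsub : {a : ℤ | A ≤ a ∧ (a : ℝ) < 2 * A ∧ a ∈ Far d A} ⊆ ((Cov d A i : Finset ℤ) : Set ℤ) := by
    rintro a ⟨h1, h2, u, hu1, hu2, j, hj, hja⟩
    rw [Finset.mem_coe]
    refine mem_Cov hd ?_ (by omega) h1 h2 hu1 hu2 ?_ hja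
    · rw [hAL]; exact Real.one_le_exp (by linarith)
    · have h3 : (2 * i : ℝ) ≤ j := by
        have : Real.log A / 20 = L / 20 := by rw [hL]
        rw [this] at hj
        linarith
      exact_mod_cast h3
  have hn : (({a : ℤ | A ≤ a ∧ (a : ℝ) < 2 * A ∧ a ∈ Far d A}.ncard : ℝ)) ≤ ((Cov d A i).card : ℝ) := by
    have := Set.ncard_le_ncard hsub (Finset.finite_toSet _)
    rw [Set.ncard_coe_finset] at this
    exact_mod_cast this
  refine hn.trans (hC.trans ?_)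
  -- 2 i * (3 A exp (-κ i)) ≤ A^(1 - κ/80)
  have e1 : A ^ (1 - κ / 80) = A * Real.exp (-(κ / 80) * L) := by
    rw [Real.rpow_def_of_pos hA0, ← hL, hAL, ← Real.exp_add]
    congr 1; ring
  rw [e1]
  have e2 : Real.exp (-κ * i) ≤ Real.exp κ * Real.exp (-(κ / 40) * L) := by
    rw [← Real.exp_add]; apply Real.exp_le_exp.2; nlinarith
  have e3 : L * Real.exp κ ≤ Real.exp (κ / 80 * L) := by
    have h1 := Real.quadratic_le_exp_of_nonneg (x := κ / 80 * L) (by positivity)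
    have h2 : 12800 * Real.exp κ / κ ^ 2 ≤ L := by linarith
    rw [div_le_iff₀ (by positivity)] at h2
    have h3 : L * (12800 * Real.exp κ) ≤ L * (L * κ ^ 2) := mul_le_mul_of_nonneg_left h2 (by linarith)
    have h4 : (κ / 80 * L) ^ 2 / 2 = L * (L * κ ^ 2) / 12800 := by ring
    have h5 : 0 ≤ κ / 80 * L := by positivity
    nlinarith
  have e4 : Real.exp (-(κ / 40) * L) * Real.exp (κ / 80 * L) = Real.exp (-(κ / 80) * L) := by
    rw [← Real.exp_add]; congr 1; ring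
  have e5 : 6 * (i : ℝ) ≤ L := by linarith
  have hE := Real.exp_pos (-(κ / 40) * L)
  have hi0 : (0 : ℝ) ≤ i := Nat.cast_nonneg i
  calc 2 * (i : ℝ) * (3 * A * Real.exp (-κ * i)) = A * (6 * i * Real.exp (-κ * i)) := by ring
    _ ≤ A * (L * (Real.exp κ * Real.exp (-(κ / 40) * L))) := by
        apply mul_le_mul_of_nonneg_left _ hA0.le
        exact mul_le_mul e5 e2 (Real.exp_pos _).le (by linarith)
    _ = A * ((L * Real.exp κ) * Real.exp (-(κ / 40) * L)) := by ring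
    _ ≤ A * (Real.exp (κ / 80 * L) * Real.exp (-(κ / 40) * L)) := by
        apply mul_le_mul_of_nonneg_left _ hA0.le
        exact mul_le_mul_of_nonneg_right e3 hE.le
    _ = A * Real.exp (-(κ / 80) * L) := by rw [mul_comm (Real.exp (κ / 80 * L)), e4]

end Pool.Agent.Q74.PD
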